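import Pool.Agent.W500.GT.RestB

/-!
Project GT, task GT-10 (helper500, after helper285): the resolution.
-/

set_option autoImplicit false

namespace Pool.Agent.W500.GT

open Finset Filter
open Pool.Agent.H376R2.MR (lam)
open Pool.Agent.W78.GT

variable {t c : ℤ}

/-- data for the resolution of `e` -/
def Pd (t c : ℤ) (z : ℕ) (QV : Tr → Finset ℕ) (e : Tr) (s : Bool × ℕ × ℕ) (e' : Tr) (q : ℕ)
    (f₁ f₂ : Tr) : Prop :=
  s ∈ TT t c z ∧ Tm s.1 s.2.1 e e' ∧
    ((s.2.2 = 1 ∧ exc (NT e) = 0) ∨ (s.2.2.Prime ∧ s.2.2 ∣ e'.1 ∧ s.2.2 ∣ e'.2.2)) ∧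
    q ∈ QV e' ∧ q ∣ e'.1 ∧ Rs t q e' f₁ f₂

lemma exists_data (t c : ℤ) (z : ℕ) (QV : Tr → Finset ℕ) :
    ∃ (tF : Tr → Bool × ℕ × ℕ) (eF : Tr → Tr) (qF : Tr → ℕ) (F₁ F₂ : Tr → Tr),
      ∀ e, (∃ s e' q f₁ f₂, Pd t c z QV e s e' q f₁ f₂) →
        Pd t c z QV e (tF e) (eF e) (qF e) (F₁ e) (F₂ e) := by
  classical
  have hch : ∀ e, ∃ (s : Bool × ℕ × ℕ) (e' : Tr) (q : ℕ) (f₁ f₂ : Tr),
      (∃ s e' q f₁ f₂, Pd t c z QV e s e' q f₁ f₂) → Pd t c z QV e s e' q f₁ f₂ := by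
    intro e
    by_cases h : ∃ s e' q f₁ f₂, Pd t c z QV e s e' q f₁ f₂
    · obtain ⟨s, e', q, f₁, f₂, h'⟩ := h
      exact ⟨s, e', q, f₁, f₂, fun _ => h'⟩
    · exact ⟨(false, 1, 1), (0, 0, 0), 0, (0, 0, 0), (0, 0, 0), fun h' => absurd h' h⟩
  choose tF eF qF F₁ F₂ hF using hch
  exact ⟨tF, eF, qF, F₁, F₂, hF⟩

lemma mult_key {z : ℕ} {QV : Tr → Finset ℕ} {UU : Finset ℕ}
    (hUU : ∀ e, QV e ⊆ UU)
    (hQV : ∀ e : Tr, ∀ q ∈ QV e, q.Prime ∧ q ≡ 1 [MOD D4 t c] ∧ z ^ 2 < q)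
    {tF : Tr → Bool × ℕ × ℕ} {eF : Tr → Tr} {qF : Tr → ℕ} {F₁ F₂ : Tr → Tr}
    (U : Finset Tr)
    (hU : ∀ e ∈ U, Pd t c z QV e (tF e) (eF e) (qF e) (F₁ e) (F₂ e)) (f : Tr) :
    (open scoped Classical in
      (U.filter (fun e => F₁ e = f)).card ≤ (TT t c z).card * UU.card ∧
      (U.filter (fun e => F₂ e = f)).card ≤ (TT t c z).card * UU.card) := by
  classical
  rw [← Finset.card_product]
  have maps : ∀ e ∈ U, (tF e, qF e) ∈ TT t c z ×ˢ UU := by
    intro e he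
    obtain ⟨h1, _, _, h4, _⟩ := hU e he
    rw [mem_product]
    exact ⟨h1, hUU _ h4⟩
  constructor
  · apply Finset.card_le_card_of_injOn (fun e => (tF e, qF e))
    · intro e he
      rw [mem_coe, mem_filter] at he
      exact maps e he.1
    · intro e he e' he' hee
      rw [mem_coe, mem_filter] at he he'
      obtain ⟨ht, hT, _, h4, _, hR⟩ := hU e he.1
      obtain ⟨ht', hT', _, h4', _, hR'⟩ := hU e' he'.1
      have h5 : tF e = tF e' := congrArg Prod.fst hee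
      have h6 : qF e = qF e' := congrArg Prod.snd hee
      have hq := hQV _ _ h4
      rw [← h6, he'.2] at hR'
      rw [he.2] at hR
      have h7 : eF e = eF e' := Rs_inj1 hq.1.ne_zero hR hR'
      rw [← h5, ← h7] at hT'
      exact Tm_inj (TT_ne_zero ht) hT hT'
  · apply Finset.card_le_card_of_injOn (fun e => (tF e, qF e))
    · intro e he
      rw [mem_coe, mem_filter] at he
      exact maps e he.1
    · intro e he e' he' hee
      rw [mem_coe, mem_filter] at he he'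
      obtain ⟨ht, hT, _, h4, _, hR⟩ := hU e he.1
      obtain ⟨ht', hT', _, h4', _, hR'⟩ := hU e' he'.1
      have h5 : tF e = tF e' := congrArg Prod.fst hee
      have h6 : qF e = qF e' := congrArg Prod.snd hee
      have hq := hQV _ _ h4
      rw [← h6, he'.2] at hR'
      rw [he.2] at hR
      have h7 : eF e = eF e' := Rs_inj2 hq.1.ne_zero hR hR'
      rw [← h5, ← h7] at hT'
      exact Tm_inj (TT_ne_zero ht) hT hT'

/-- sizes -/
lemma size_all {z : ℕ} (hz : 5 ≤ z) {QV : Tr → Finset ℕ} {UU : Finset ℕ}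
    (hUU : ∀ e, QV e ⊆ UU)
    (hQV : ∀ e : Tr, ∀ q ∈ QV e, q.Prime ∧ q ≡ 1 [MOD D4 t c] ∧ z ^ 2 < q)
    {X : ℝ} (hX : 1 ≤ X) {e e' f₁ f₂ : Tr}
    {s : Bool × ℕ × ℕ} {q : ℕ} (he : e ∈ tri t c X X) (h : Pd t c z QV e s e' q f₁ f₂) :
    f₁ ∈ tri t c ((Kn t c * (∑ q ∈ UU, (q : ℝ)) * z + 1) * X)
        ((Kn t c * (∑ q ∈ UU, (q : ℝ)) * z + 1) * X) ∧
      f₂ ∈ tri t c ((Kn t c * (∑ q ∈ UU, (q : ℝ)) * z + 1) * X)
        ((Kn t c * (∑ q ∈ UU, (q : ℝ)) * z + 1) * X) := by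
  obtain ⟨ht, hT, _, h4, _, hR⟩ := h
  have hq := hQV _ _ h4
  have hz1 : (1 : ℝ) ≤ z := by exact_mod_cast (by omega : 1 ≤ z)
  have hw := TT_ne_zero ht
  have he' := Tm_tri hw hT he
  rw [mem_tri'] at he'
  have hn1 : (1 : ℝ) ≤ s.2.1 := by exact_mod_cast Nat.one_le_iff_ne_zero.2 hw
  have hnz : (s.2.1 : ℝ) ≤ z := by exact_mod_cast TT_le (by omega) ht
  have hX0 : (0 : ℝ) ≤ X := by linarith
  have hdiv : X / s.2.1 ≤ z * X := by
    rw [div_le_iff₀ (by linarith)]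
    have : X * 1 ≤ z * X * s.2.1 := by
      calc X * 1 = 1 * X * 1 := by ring
        _ ≤ z * X * s.2.1 := by gcongr
    linarith
  have hmul : X * s.2.1 ≤ z * X := by
    rw [mul_comm]
    gcongr
  have hB1 : B1 s.1 s.2.1 X ≤ z * X := by
    unfold B1
    split_ifs
    · exact hmul
    · exact hdiv
  have hB2 : B2 s.1 s.2.1 X ≤ z * X := by
    unfold B2
    split_ifs
    · exact hdiv
    · exact hmul
  have hs := size_key he'.1 hq.1.one_lt.le hR hX hz1 (he'.2.1.trans hB1) (he'.2.2.trans hB2)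
  have hqs : (q : ℝ) ≤ ∑ q ∈ UU, (q : ℝ) :=
    Finset.single_le_sum (f := fun q : ℕ => (q : ℝ)) (fun i _ => by positivity) (hUU _ h4)
  have hle : (Kn t c : ℝ) * q * z * X ≤ (Kn t c * (∑ q ∈ UU, (q : ℝ)) * z + 1) * X := by
    have h0 : 0 ≤ (Kn t c : ℝ) * (z * X) := by positivity
    nlinarith [mul_le_mul_of_nonneg_left hqs h0]
  exact ⟨tri_mono hle hle hs.1, tri_mono hle hle hs.2⟩

/-- counting by a relation -/
lemma card_le_rel {α β : Type*} (s : Finset α) (t : Finset β) (R : α → β → Prop)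
    (h1 : ∀ a ∈ s, ∃ b ∈ t, R a b) (h2 : ∀ a a' b, R a b → R a' b → a = a') :
    s.card ≤ t.card := by
  classical
  rcases isEmpty_or_nonempty β with hE | hE
  · have : s = ∅ := by
      rw [Finset.eq_empty_iff_forall_notMem]
      intro a ha
      obtain ⟨b, _⟩ := h1 a ha
      exact hE.false b
    rw [this]
    simp
  · choose! f hf using h1
    apply Finset.card_le_card_of_injOn f
    · intro a ha
      exact (hf a ha).1
    · intro a ha a' ha' h
      have h3 := (hf a ha).2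
      have h4 := (hf a' ha').2
      rw [← h] at h4
      exact h2 _ _ _ h3 h4

open scoped Classical in
/-- the exceptional set of `S_EXC2T` -/
noncomputable def EX (t c : ℤ) (z : ℕ) (Q : Tr → Finset ℕ) (A : ℕ) (X X₁ X₂ : ℝ)
    (p : ℕ) : Finset Tr :=
  (tri t c X₁ X₂).filter (fun e => (p ∣ e.1 ∧ p ∣ e.2.2) ∧
      ∃ q ∈ Q e, q ∣ e.1 ∧ ∃ l : ℕ, Spl t c l ∧ z < l ∧ (l : ℝ) ≤ Real.log X ^ A ∧
        ∃ x : ℤ, (q : ℤ) * x = MM t e.1 e.2.1 e.2.2 q ∧ (l : ℤ) ∣ x ∧
          (l ∣ NT e ∨ (l : ℤ) ^ 2 ∣ x))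

open scoped Classical in
/-- the triples for which some transform is in the exceptional set -/
noncomputable def E3 (t c : ℤ) (z : ℕ) (Q : Tr → Finset ℕ) (A : ℕ) (X : ℝ) :
    Finset Tr :=
  (tri t c X X).filter (fun e => ∃ s ∈ TT t c z, ∃ e', Tm s.1 s.2.1 e e' ∧
    e' ∈ EX t c z Q A X (B1 s.1 s.2.1 X) (B2 s.1 s.2.1 X) s.2.2)

lemma card_E3 {z : ℕ} {Q : Tr → Finset ℕ} {A : ℕ} {X b : ℝ} (hb : 0 ≤ b)
    (h : ∀ s ∈ TT t c z, ((EX t c z Q A X (B1 s.1 s.2.1 X) (B2 s.1 s.2.1 X) s.2.2).card : ℝ) ≤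
      b / (s.2.2 : ℝ) ^ 2) : ((E3 t c z Q A X).card : ℝ) ≤ 6 * b := by
  classical
  set R : Bool × ℕ × ℕ → Finset Tr := fun s =>
    (tri t c X X).filter (fun e => ∃ e', Tm s.1 s.2.1 e e' ∧
      e' ∈ EX t c z Q A X (B1 s.1 s.2.1 X) (B2 s.1 s.2.1 X) s.2.2) with hR
  have hRc : ∀ s ∈ TT t c z, ((R s).card : ℝ) ≤ b / (s.2.2 : ℝ) ^ 2 := by
    intro s hs
    refine le_trans ?_ (h s hs)
    have := card_le_rel (R s) (EX t c z Q A X (B1 s.1 s.2.1 X) (B2 s.1 s.2.1 X) s.2.2)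
      (fun e e' => Tm s.1 s.2.1 e e') ?_ ?_
    · exact_mod_cast this
    · intro e he
      rw [hR, mem_filter] at he
      obtain ⟨_, e', h1, h2⟩ := he
      exact ⟨e', h2, h1⟩
    · intro a a' b hab hab'
      exact Tm_inj (TT_ne_zero hs) hab hab'
  have hsub : E3 t c z Q A X ⊆ R (false, 1, 1) ∪ (PP t c z).biUnion (fun p => (T3 p).biUnion R) := by
    intro e he
    unfold E3 at he
    rw [mem_filter] at he
    obtain ⟨he, s, hs, e', hT, hE⟩ := he
    have hRt : e ∈ R s := by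
      rw [hR, mem_filter]
      exact ⟨he, e', hT, hE⟩
    unfold TT at hs
    rw [mem_union, mem_singleton, mem_biUnion] at hs
    rw [mem_union, mem_biUnion]
    rcases hs with rfl | ⟨p, hp, hs⟩
    · exact Or.inl hRt
    · refine Or.inr ⟨p, hp, ?_⟩
      rw [mem_biUnion]
      exact ⟨s, hs, hRt⟩
  have h1 : ((E3 t c z Q A X).card : ℝ) ≤ (R (false, 1, 1)).card +
      ∑ p ∈ PP t c z, ∑ s ∈ T3 p, ((R s).card : ℝ) := by
    have h2 := (Finset.card_le_card hsub).trans (Finset.card_union_le _ _)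
    have h3 : ((PP t c z).biUnion (fun p => (T3 p).biUnion R)).card ≤
        ∑ p ∈ PP t c z, ∑ s ∈ T3 p, (R s).card :=
      Finset.card_biUnion_le.trans (Finset.sum_le_sum fun p _ => Finset.card_biUnion_le)
    have h4 : (E3 t c z Q A X).card ≤ (R (false, 1, 1)).card +
        ∑ p ∈ PP t c z, ∑ s ∈ T3 p, (R s).card :=
      h2.trans (Nat.add_le_add_left h3 _)
    exact_mod_cast h4
  have h2 : ((R (false, 1, 1)).card : ℝ) ≤ b := by
    have := hRc _ (TT_one z)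
    simpa using this
  have h3 : ∑ p ∈ PP t c z, ∑ s ∈ T3 p, ((R s).card : ℝ) ≤ 5 * b := by
    calc ∑ p ∈ PP t c z, ∑ s ∈ T3 p, ((R s).card : ℝ)
        ≤ ∑ p ∈ PP t c z, 5 * (b * (1 / (p : ℝ) ^ 2)) := by
          apply Finset.sum_le_sum
          intro p hp
          calc ∑ s ∈ T3 p, ((R s).card : ℝ) ≤ ∑ s ∈ T3 p, b * (1 / (p : ℝ) ^ 2) := by
                apply Finset.sum_le_sum
                intro s hs
                have := hRc s (TT_mem hp hs)
                have h5 : s.2.2 = p := by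
                  unfold T3 at hs
                  simp only [mem_insert, mem_singleton] at hs
                  rcases hs with rfl | rfl | rfl <;> rfl
                rw [h5] at this
                rw [mul_one_div]
                exact this
            _ = (T3 p).card * (b * (1 / (p : ℝ) ^ 2)) := by
                rw [Finset.sum_const, nsmul_eq_mul]
            _ ≤ 5 * (b * (1 / (p : ℝ) ^ 2)) := by
                gcongr
                have : (T3 p).card ≤ 3 := by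
                  unfold T3
                  exact Finset.card_le_three
                have : (T3 p).card ≤ 5 := by omega
                exact_mod_cast this
      _ = 5 * b * ∑ p ∈ PP t c z, 1 / (p : ℝ) ^ 2 := by
          rw [Finset.mul_sum]
          apply Finset.sum_congr rfl
          intro p _
          ring
      _ ≤ 5 * b * 1 := by
          gcongr
          exact sum_PP_le t c z
      _ = 5 * b := by ring
  linarith

/-- few triples with a vertex without prime divisors from the candidate sets -/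
lemma card_E2 {C3 C4 δ κ X S0 : ℝ} (hC3 : 0 < C3) (hC4 : 0 < C4) (hκ : 0 < κ)
    (hκ2 : C3 * κ ≤ δ / 8) (hX : 0 ≤ X)
    {D m : ℕ} (hS : 8 * C3 * C4 * D * m * Real.exp (-S0) ≤ δ * κ)
    {RR : Finset ℕ} {QQ : ℕ → Finset ℕ} (hRR : RR.card ≤ D * m)
    (hQ : ∀ r ∈ RR, (∀ q ∈ QQ r, q.Prime) ∧ S0 ≤ ∑ q ∈ QQ r, 1 / (q : ℝ))
    {V : ℕ → Finset (ℕ × ℤ)}
    (hV : ∀ r ∈ RR, ((V r).card : ℝ) ≤ C4 * (∏ q ∈ QQ r, (1 - 1 / (q : ℝ))) * X)
    {N : ℝ}
    (hN : N ≤ C3 * (κ * X + ((RR.biUnion V).card : ℝ) / κ)) : N ≤ δ / 4 * X := by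
  have h1 : ∀ r ∈ RR, ((V r).card : ℝ) ≤ C4 * Real.exp (-S0) * X := by
    intro r hr
    refine (hV r hr).trans ?_
    have h2 := prod_le_exp (QQ r) (hQ r hr).1
    have h3 : Real.exp (-∑ q ∈ QQ r, 1 / (q : ℝ)) ≤ Real.exp (-S0) := by
      apply Real.exp_le_exp.2
      linarith [(hQ r hr).2]
    gcongr
    exact h2.trans h3
  have h2 : ((RR.biUnion V).card : ℝ) ≤ C4 * D * m * Real.exp (-S0) * X := by
    have h3 : ((RR.biUnion V).card : ℝ) ≤ ∑ r ∈ RR, ((V r).card : ℝ) := by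
      have : (RR.biUnion V).card ≤ ∑ r ∈ RR, (V r).card := Finset.card_biUnion_le
      exact_mod_cast this
    have h4 : ∑ r ∈ RR, ((V r).card : ℝ) ≤ ∑ r ∈ RR, C4 * Real.exp (-S0) * X :=
      Finset.sum_le_sum h1
    rw [Finset.sum_const, nsmul_eq_mul] at h4
    have h5 : (RR.card : ℝ) ≤ D * m := by exact_mod_cast hRR
    have h6 : 0 ≤ C4 * Real.exp (-S0) * X := by positivity
    have h7 := mul_le_mul_of_nonneg_right h5 h6
    calc ((RR.biUnion V).card : ℝ) ≤ D * m * (C4 * Real.exp (-S0) * X) := by linarith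
      _ = C4 * D * m * Real.exp (-S0) * X := by ring
  have h3 : C3 * (((RR.biUnion V).card : ℝ) / κ) ≤ δ / 8 * X := by
    rw [mul_div_assoc', div_le_iff₀ hκ]
    calc C3 * ((RR.biUnion V).card : ℝ) ≤ C3 * (C4 * D * m * Real.exp (-S0) * X) := by gcongr
      _ = (8 * C3 * C4 * D * m * Real.exp (-S0)) * (X / 8) := by ring
      _ ≤ (δ * κ) * (X / 8) := by gcongr
      _ = δ / 8 * X * κ := by ring
  have h4 : C3 * (κ * X) ≤ δ / 8 * X := by
    rw [← mul_assoc]
    gcongr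
  rw [mul_add] at hN
  linarith

/-- the resolution -/
theorem rest_of (hG : Good t c) (h1 : S_LOCT t c) (h2 : S_EXC2T t c) (h3 : S_LARGET t c)
    (h4 : S_SIFTT t c) (h5 : S_SQT t c) (h6 : S_VET t c) : S_REST t c := by
  classical
  intro δ hδ
  obtain ⟨C1, hC1, hexc⟩ := h2
  obtain ⟨C2, _, hsq⟩ := h5
  obtain ⟨C3, hC3, hve⟩ := h6
  obtain ⟨C4, hC4, hsift⟩ := h4
  obtain ⟨A, hlarge⟩ := h3
  obtain ⟨κ, hκ0, hκ1, hκ2⟩ : ∃ κ : ℝ, 0 < κ ∧ κ ≤ 1 ∧ C3 * κ ≤ δ / 8 := by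
    refine ⟨min 1 (δ / (8 * C3)), lt_min one_pos (by positivity), min_le_left _ _, ?_⟩
    have : min 1 (δ / (8 * C3)) ≤ δ / (8 * C3) := min_le_right _ _
    calc C3 * min 1 (δ / (8 * C3)) ≤ C3 * (δ / (8 * C3)) := by gcongr
      _ = δ / 8 := by field_simp
  obtain ⟨lK, hlK, hS0⟩ := exists_S0 (C3 := 8 * C3 * C4 * D4 t c) t c hδ hκ0
  obtain ⟨z, hz5, hz1, hz2⟩ := exists_z (C2 := C2) hC1 hδ hlK
  have hl16 : 0 < Real.log 16 := Real.log_pos (by norm_num)
  obtain ⟨S0, hS0d⟩ : ∃ S0 : ℝ, S0 = lK + z * Real.log 16 + 1 := ⟨_, rfl⟩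
  have hS0n : 0 ≤ S0 := by rw [hS0d]; positivity
  have hS0z := hS0 z
  rw [← hS0d] at hS0z hz2
  have hz1R : (5 : ℝ) ≤ z := by exact_mod_cast hz5
  have hz0 : (0 : ℝ) < z := by linarith
  have hlz : 0 < Real.log z := Real.log_pos (by linarith)
  obtain ⟨RR, QQ, cl, hRR, hclR, hQQ, hper, hlocal⟩ := exists_cand hG h1 z hS0n
  set QV : Tr → Finset ℕ := fun e => QQ (cl e) with hQVd
  have hQV : ∀ e : Tr, ∀ q ∈ QV e, q.Prime ∧ q ≡ 1 [MOD D4 t c] ∧ z ^ 2 < q :=
    fun e q hq => (hQQ _ (hclR e)).1 q hq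
  set UU : Finset ℕ := RR.biUnion QQ with hUUd
  have hUU : ∀ e, QV e ⊆ UU := by
    intro e q hq
    rw [hUUd, mem_biUnion]
    exact ⟨cl e, hclR e, hq⟩
  obtain ⟨tF, eF, qF, F₁, F₂, hF⟩ := exists_data t c z QV
  set D : ℕ := (TT t c z).card * UU.card with hD
  set Qb : ℝ := Kn t c * (∑ q ∈ UU, (q : ℝ)) * z + 1 with hQb
  have hQb1 : 1 ≤ Qb := by
    rw [hQb]
    have : 0 ≤ Kn t c * (∑ q ∈ UU, (q : ℝ)) * z := by positivity
    linarith
  -- eventual statements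
  have ev1 : ∀ᶠ X : ℝ in atTop, ∀ s ∈ TT t c z,
      ((EX t c z QV (A + 1) X (B1 s.1 s.2.1 X) (B2 s.1 s.2.1 X) s.2.2).card : ℝ) ≤
        (C1 * (S0 + 1) / (z * Real.log z) * X) / (s.2.2 : ℝ) ^ 2 := by
    obtain ⟨X₀, hX₀⟩ := hexc z (S0 + 1) QV hz5 (by linarith)
      (fun e f hef => by rw [hQVd]; exact congrArg QQ (hper e f hef)) hQV
      (fun e => (hQQ _ (hclR e)).2.2) (A + 1)
    filter_upwards [eventually_ge_atTop X₀, eventually_ge_atTop (z : ℝ),
      Real.tendsto_log_atTop.eventually_ge_atTop (z : ℝ)] with X hX hXz hlX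
    intro s hs
    obtain ⟨hp, hn⟩ := TT_prop hs
    have hX0 : 0 < X := by linarith
    have hn1 : (1 : ℝ) ≤ s.2.1 := by exact_mod_cast Nat.one_le_iff_ne_zero.2 (TT_ne_zero hs)
    have hnz : (s.2.1 : ℝ) ≤ z := by exact_mod_cast TT_le (by omega) hs
    have hd1 : 1 ≤ X / s.2.1 := by
      rw [le_div_iff₀ (by linarith)]
      linarith
    have hd2 : X / s.2.1 ≤ X * Real.log X := by
      have : X / s.2.1 ≤ X := div_le_self hX0.le hn1
      nlinarith
    have hm1 : 1 ≤ X * s.2.1 := by nlinarith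
    have hm2 : X * s.2.1 ≤ X * Real.log X := by
      gcongr
      linarith
    have hpr : X / s.2.1 * (X * s.2.1) = X ^ 2 := by
      have : (s.2.1 : ℝ) ≠ 0 := by linarith
      field_simp
    have hpr2 : X * s.2.1 * (X / s.2.1) = X ^ 2 := by
      have : (s.2.1 : ℝ) ≠ 0 := by linarith
      field_simp
    have hb1 : 1 ≤ B1 s.1 s.2.1 X ∧ B1 s.1 s.2.1 X ≤ X * Real.log X := by
      unfold B1
      split_ifs
      · exact ⟨hm1, hm2⟩
      · exact ⟨hd1, hd2⟩
    have hb2 : 1 ≤ B2 s.1 s.2.1 X ∧ B2 s.1 s.2.1 X ≤ X * Real.log X := by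
      unfold B2
      split_ifs
      · exact ⟨hd1, hd2⟩
      · exact ⟨hm1, hm2⟩
    have hb12 : B1 s.1 s.2.1 X * B2 s.1 s.2.1 X ≤ X ^ 2 := by
      unfold B1 B2
      split_ifs
      · exact hpr2.le
      · exact hpr.le
    have := hX₀ X (B1 s.1 s.2.1 X) (B2 s.1 s.2.1 X) hX hb1.1 hb2.1 hb12 hb1.2 hb2.2 s.2.2 hp
    unfold EX
    exact this
  have ev2 : ∀ᶠ X : ℝ in atTop, (((tri t c X X).filter
      (fun e => ∃ l : ℕ, l.Prime ∧ z < l ∧ l ^ 2 ∣ NT e)).card : ℝ) ≤ C2 / z * X := by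
    obtain ⟨X₀, hX₀⟩ := hsq z (by omega)
    filter_upwards [eventually_ge_atTop X₀] with X hX
    exact hX₀ X hX
  have ev3 : ∀ᶠ X : ℝ in atTop, ∀ r ∈ RR,
      (((rts t c X).filter (fun e => ∀ q ∈ QQ r, ¬ q ∣ e.1)).card : ℝ) ≤
        C4 * (∏ q ∈ QQ r, (1 - 1 / (q : ℝ))) * X := by
    rw [Filter.eventually_all_finset]
    intro r hr
    obtain ⟨X₀, hX₀⟩ := hsift (QQ r)
      (fun q hq => ⟨((hQQ r hr).1 q hq).1, ((hQQ r hr).1 q hq).2.1⟩)
    filter_upwards [eventually_ge_atTop X₀] with X hX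
    exact hX₀ X hX
  have ev4 : ∀ᶠ X : ℝ in atTop, (((tri t c (Qb * X) (Qb * X)).filter
      (fun e => ∃ l : ℕ, l.Prime ∧ Real.log (Qb * X) ^ A < (l : ℝ) ∧ l ^ 2 ∣ NT e)).card : ℝ) ≤
        δ / (16 * (D + 1) * Qb) * (Qb * X) := by
    obtain ⟨X₀, hX₀⟩ := hlarge (δ / (16 * (D + 1) * Qb)) (by positivity)
    filter_upwards [eventually_ge_atTop X₀, eventually_ge_atTop 0] with X hX hX0
    apply hX₀
    nlinarith
  obtain ⟨X₀, hX₀⟩ := eventually_atTop.1 (((((ev1.and ev2).and ev3).and ev4).and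
    (eventually_ge_atTop Qb)).and (Real.tendsto_log_atTop.eventually_ge_atTop ((2 : ℝ) ^ A)))
  refine ⟨Qb, D, X₀, hQb1, fun X hX => ?_⟩
  obtain ⟨⟨⟨⟨⟨e1, e2⟩, e3⟩, e4⟩, e5⟩, e6⟩ := hX₀ X hX
  have hX1 : 1 ≤ X := hQb1.trans e5
  have hX0 : 0 ≤ X := by linarith
  -- the exceptional sets
  obtain ⟨G1, hG1⟩ : ∃ G : Finset Tr, G = (tri t c X X).filter
      (fun e => ∃ l : ℕ, l.Prime ∧ z < l ∧ l ^ 2 ∣ NT e) := ⟨_, rfl⟩
  obtain ⟨V, hV⟩ : ∃ V : ℕ → Finset (ℕ × ℤ), V = fun r =>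
    (rts t c X).filter (fun e => ∀ q ∈ QQ r, ¬ q ∣ e.1) := ⟨_, rfl⟩
  obtain ⟨G2, hG2⟩ : ∃ G : Finset Tr, G = (tri t c X X).filter
      (fun e => vx e ∈ RR.biUnion V ∨ vy e ∈ RR.biUnion V) := ⟨_, rfl⟩
  obtain ⟨G3, hG3⟩ : ∃ G : Finset Tr, G = E3 t c z QV (A + 1) X := ⟨_, rfl⟩
  obtain ⟨LG, hLG⟩ : ∃ G : Finset Tr, G = (tri t c (Qb * X) (Qb * X)).filter
      (fun e => ∃ l : ℕ, l.Prime ∧ Real.log (Qb * X) ^ A < (l : ℝ) ∧ l ^ 2 ∣ NT e) := ⟨_, rfl⟩
  obtain ⟨U, hU⟩ : ∃ G : Finset Tr, G = (tri t c X X).filter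
      (fun e => e ∉ G1 ∧ e ∉ G2) := ⟨_, rfl⟩
  obtain ⟨G4, hG4⟩ : ∃ G : Finset Tr, G = U.filter
      (fun e => F₁ e ∈ LG) ∪ U.filter (fun e => F₂ e ∈ LG) := ⟨_, rfl⟩
  rw [← hG1] at e2
  rw [← hLG] at e4
  have e3' : ∀ r ∈ RR, ((V r).card : ℝ) ≤ C4 * (∏ q ∈ QQ r, (1 - 1 / (q : ℝ))) * X := by
    rw [hV]
    exact e3
  -- data on `U`
  have hdata : ∀ e ∈ U, Pd t c z QV e (tF e) (eF e) (qF e) (F₁ e) (F₂ e) := by
    intro e he
    apply hF
    rw [hU, mem_filter] at he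
    obtain ⟨hed, h1', h2'⟩ := he
    have hok := (mem_tri'.1 hed).1
    have hsq' : ¬ ∃ l : ℕ, l.Prime ∧ z < l ∧ l ^ 2 ∣ NT e := by
      intro hcon
      apply h1'
      rw [hG1, mem_filter]
      exact ⟨hed, hcon⟩
    obtain ⟨s, hs, e', hT, hte⟩ := exists_type hG hok hsq'
    have he1 : vx e ∉ RR.biUnion V := by
      intro hcon
      apply h2'
      rw [hG2, mem_filter]
      exact ⟨hed, Or.inl hcon⟩
    have hex : ∃ q ∈ QQ (cl e'), q ∣ e.1 := by
      by_contra hcon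
      push Not at hcon
      apply he1
      rw [mem_biUnion]
      refine ⟨cl e', hclR _, ?_⟩
      rw [hV, mem_filter]
      exact ⟨vx_mem hed, hcon⟩
    obtain ⟨q, hq, hqd⟩ := hex
    have hqp := hQV _ q hq
    have hnq : ¬ q ∣ s.2.1 := by
      intro hcon
      have hle := TT_le (by omega) hs
      have h0 : 0 < s.2.1 := Nat.pos_of_ne_zero (TT_ne_zero hs)
      have := Nat.le_of_dvd h0 hcon
      nlinarith [hqp.2.2]
    have hd' := dvd_Tm hT hqp.1 hnq hqd
    obtain ⟨f₁, f₂, hR⟩ := Rs_of_dvd (Tm_ok hT hok) hd'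
    exact ⟨s, e', q, _, _, hs, hT, hte, hq, hd', hR⟩
  have hmult := mult_key hUU hQV U hdata
  have hsize : ∀ e ∈ U, F₁ e ∈ tri t c (Qb * X) (Qb * X) ∧ F₂ e ∈ tri t c (Qb * X) (Qb * X) := by
    intro e he
    have hed : e ∈ tri t c X X := by
      rw [hU, mem_filter] at he
      exact he.1
    exact size_all hz5 hUU hQV hX1 hed (hdata e he)
  -- the exceptional set is small
  have c1 : (G1.card : ℝ) ≤ δ / 8 * X := by
    refine e2.trans ?_
    gcongr
  have c2 : (G2.card : ℝ) ≤ δ / 4 * X := by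
    refine card_E2 (V := V) (S0 := S0) (QQ := QQ) hC3 hC4 hκ0 hκ2 hX0
      hS0z hRR ?_ e3' ?_
    · intro r hr
      exact ⟨fun q hq => ((hQQ r hr).1 q hq).1, (hQQ r hr).2.1⟩
    · rw [hG2]
      refine hve κ X (RR.biUnion V) hκ0 hκ1 hX1 ?_
      intro v hv
      rw [mem_biUnion] at hv
      obtain ⟨r, _, hv⟩ := hv
      rw [hV, mem_filter] at hv
      exact hv.1
  have c3 : (G3.card : ℝ) ≤ δ / 8 * X := by
    have hb : 0 ≤ C1 * (S0 + 1) / (z * Real.log z) * X := by positivity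
    have := card_E3 hb e1
    rw [← hG3] at this
    refine this.trans ?_
    calc 6 * (C1 * (S0 + 1) / (z * Real.log z) * X)
        = 6 * (C1 * (S0 + 1) / (z * Real.log z)) * X := by ring
      _ ≤ δ / 8 * X := by gcongr
  have c4 : (G4.card : ℝ) ≤ δ / 8 * X := by
    have hA : (U.filter (fun e => F₁ e ∈ LG)).card ≤ D * LG.card := by
      apply Finset.card_le_mul_card_image_of_maps_to (f := F₁)
      · intro e he
        rw [mem_filter] at he
        exact he.2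
      · intro f _
        refine le_trans (Finset.card_le_card ?_) (hmult f).1
        intro e he
        rw [mem_filter, mem_filter] at he
        rw [mem_filter]
        exact ⟨he.1.1, he.2⟩
    have hB : (U.filter (fun e => F₂ e ∈ LG)).card ≤ D * LG.card := by
      apply Finset.card_le_mul_card_image_of_maps_to (f := F₂)
      · intro e he
        rw [mem_filter] at he
        exact he.2
      · intro f _
        refine le_trans (Finset.card_le_card ?_) (hmult f).2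
        intro e he
        rw [mem_filter, mem_filter] at he
        rw [mem_filter]
        exact ⟨he.1.1, he.2⟩
    have hC : G4.card ≤ 2 * D * LG.card := by
      have := Finset.card_union_le (U.filter (fun e => F₁ e ∈ LG)) (U.filter (fun e => F₂ e ∈ LG))
      rw [← hG4] at this
      calc G4.card ≤ _ := this
        _ ≤ D * LG.card + D * LG.card := Nat.add_le_add hA hB
        _ = 2 * D * LG.card := by ring
    have hC' : (G4.card : ℝ) ≤ 2 * D * LG.card := by exact_mod_cast hC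
    calc (G4.card : ℝ) ≤ 2 * D * LG.card := hC'
      _ ≤ 2 * (D + 1) * (δ / (16 * (D + 1) * Qb) * (Qb * X)) := by
          gcongr
          linarith
      _ = δ / 8 * X := by
          have h1' : Qb ≠ 0 := by linarith
          have h2' : ((D : ℝ) + 1) ≠ 0 := by positivity
          field_simp
          ring
  refine ⟨G1 ∪ G2 ∪ G3 ∪ G4, F₁, F₂, ?_, ?_, ?_⟩
  · have h7 : (G1 ∪ G2 ∪ G3 ∪ G4).card ≤ G1.card + G2.card + G3.card + G4.card := by
      refine (Finset.card_union_le _ _).trans ?_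
      refine Nat.add_le_add_right ?_ _
      refine (Finset.card_union_le _ _).trans ?_
      refine Nat.add_le_add_right ?_ _
      exact Finset.card_union_le _ _
    have h8 : ((G1 ∪ G2 ∪ G3 ∪ G4).card : ℝ) ≤ G1.card + G2.card + G3.card + G4.card := by
      exact_mod_cast h7
    have h9 : 0 ≤ δ * X := by positivity
    linarith
  · intro e hed heE
    simp only [mem_union, not_or] at heE
    obtain ⟨⟨⟨n1, n2⟩, n3⟩, n4⟩ := heE
    have heU : e ∈ U := by
      rw [hU, mem_filter]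
      exact ⟨hed, n1, n2⟩
    have hP := hdata e heU
    obtain ⟨ht, hT, hte, hq, hqd, hR⟩ := hP
    have hs := hsize e heU
    have hok := (mem_tri'.1 hed).1
    have hok' : TrOk t c (eF e) := Tm_ok hT hok
    have hNN := Tm_NT hT
    have hqp := hQV _ _ hq
    have hlog := log_key hQb1 e5 e6
    have hx := local_key hG (L := Real.log X ^ (A + 1)) (z := z) hok' hR
      (fun l hl hlz => hlocal (eF e) hok' (qF e) hq l hl hlz)
      (by
        intro l hl hzl hlL hlx hcon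
        apply n3
        rw [hG3]
        unfold E3
        rw [mem_filter]
        refine ⟨hed, tF e, ht, eF e, hT, ?_⟩
        unfold EX
        rw [mem_filter]
        refine ⟨Tm_tri (TT_ne_zero ht) hT hed, ?_, qF e, hq, hqd, l, hl, hzl, hlL,
          ((F₁ e).2.2 : ℤ), Rs_MM hR, Int.natCast_dvd_natCast.2 hlx, ?_⟩
        · rcases hte with ⟨h1', _⟩ | ⟨_, h2', h3'⟩
          · rw [h1']
            exact ⟨one_dvd _, one_dvd _⟩
          · exact ⟨h2', h3'⟩
        · rcases hcon with hcon | hcon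
          · exact Or.inl hcon
          · right
            have : ((l ^ 2 : ℕ) : ℤ) ∣ ((F₁ e).2.2 : ℤ) := Int.natCast_dvd_natCast.2 hcon
            push_cast at this
            exact this)
      (by
        intro l hl hL
        have n4' : F₁ e ∉ LG ∧ F₂ e ∉ LG := by
          constructor
          · intro hcon
            apply n4
            rw [hG4, mem_union]
            left
            rw [mem_filter]
            exact ⟨heU, hcon⟩
          · intro hcon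
            apply n4
            rw [hG4, mem_union]
            right
            rw [mem_filter]
            exact ⟨heU, hcon⟩
        constructor
        · intro hcon
          apply n4'.1
          rw [hLG, mem_filter]
          exact ⟨hs.1, l, hl, lt_of_le_of_lt hlog hL, hcon⟩
        · intro hcon
          apply n4'.2
          rw [hLG, mem_filter]
          exact ⟨hs.2, l, hl, lt_of_le_of_lt hlog hL, hcon⟩)
    have hqne : qF e ≠ (tF e).2.2 := by
      intro hcon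
      obtain ⟨hp, _⟩ := TT_prop ht
      rcases hp with hp | hp
      · rw [hp] at hcon
        have := hqp.1.one_lt
        omega
      · have h1' := hp.2
        rw [← hcon] at h1'
        nlinarith [hqp.2.2]
    rw [← hNN]
    rw [← hNN] at hte
    have hexc' := exc_key hok' hqp.1 hqne hR hx hte
    exact ⟨hs.1, hs.2, lam_key hok' hR, hexc'.1, hexc'.2⟩
  · intro f
    constructor
    · refine le_trans (Finset.card_le_card ?_) (hmult f).1
      intro e he
      rw [mem_filter] at he ⊢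
      obtain ⟨hed, hnE, hf⟩ := he
      simp only [mem_union, not_or] at hnE
      refine ⟨?_, hf⟩
      rw [hU, mem_filter]
      exact ⟨hed, hnE.1.1.1, hnE.1.1.2⟩
    · refine le_trans (Finset.card_le_card ?_) (hmult f).2
      intro e he
      rw [mem_filter] at he ⊢
      obtain ⟨hed, hnE, hf⟩ := he
      simp only [mem_union, not_or] at hnE
      refine ⟨?_, hf⟩
      rw [hU, mem_filter]
      exact ⟨hed, hnE.1.1.1, hnE.1.1.2⟩

end Pool.Agent.W500.GT
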