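import Pool.Agent.W78.GT.Basic

/-!
Project GT, task GT-10 (helper500, after helper285): algebra of the resolution.
-/

set_option autoImplicit false

namespace Pool.Agent.W500.GT

open Finset Filter
open Pool.Agent.H376R2.MR (lam)
open Pool.Agent.W78.GT
open Pool.Agent.W78.GA (lam_mul)
open ArithmeticFunction (cardFactors cardDistinctFactors)

variable {t c : ℤ}

/-! ### the excess -/

lemma om_le (m : ℕ) : cardDistinctFactors m ≤ cardFactors m := by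
  rw [ArithmeticFunction.cardDistinctFactors_apply, ArithmeticFunction.cardFactors_apply]
  exact (List.dedup_sublist _).length_le

lemma exc_add (m : ℕ) : exc m + cardDistinctFactors m = cardFactors m := by
  unfold exc
  have := om_le m
  omega

lemma om_mul_le {m k : ℕ} (hm : m ≠ 0) (hk : k ≠ 0) :
    cardDistinctFactors (m * k) ≤ cardDistinctFactors m + cardDistinctFactors k := by
  have h : ∀ n : ℕ, cardDistinctFactors n = n.primeFactors.card := by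
    intro n
    rw [ArithmeticFunction.cardDistinctFactors_apply]
    rfl
  rw [h, h, h, Nat.primeFactors_mul hm hk]
  exact Finset.card_union_le _ _

lemma exc_mono {m n : ℕ} (h : m ∣ n) (hn : n ≠ 0) : exc m ≤ exc n := by
  obtain ⟨k, rfl⟩ := h
  have hm : m ≠ 0 := left_ne_zero_of_mul hn
  have hk : k ≠ 0 := right_ne_zero_of_mul hn
  have h1 := exc_add m
  have h2 := exc_add (m * k)
  have h3 := om_mul_le hm hk
  have h4 := om_le k
  rw [ArithmeticFunction.cardFactors_mul hm hk] at h2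
  omega

lemma exc_prime_mul {p m : ℕ} (hp : p.Prime) (hm : m ≠ 0) (h : p ∣ m) :
    exc (p * m) = exc m + 1 := by
  have h1 := exc_add m
  have h2 := exc_add (p * m)
  have h3 : cardDistinctFactors (p * m) = cardDistinctFactors m := by
    have h : ∀ n : ℕ, cardDistinctFactors n = n.primeFactors.card := by
      intro n
      rw [ArithmeticFunction.cardDistinctFactors_apply]
      rfl
    rw [h, h, Nat.primeFactors_mul hp.ne_zero hm, hp.primeFactors,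
      Finset.union_eq_right.2]
    rw [Finset.singleton_subset_iff, Nat.mem_primeFactors]
    exact ⟨hp, by assumption, hm⟩
  rw [ArithmeticFunction.cardFactors_mul hp.ne_zero hm,
    ArithmeticFunction.cardFactors_apply_prime hp] at h2
  omega

lemma exc_mul_sqf {m k : ℕ} (hm : m ≠ 0) (hk : Squarefree k) (h : m.Coprime k) :
    exc (m * k) = exc m := by
  have h1 := exc_add m
  have h2 := exc_add (m * k)
  have hk0 : k ≠ 0 := hk.ne_zero
  rw [ArithmeticFunction.cardFactors_mul hm hk0,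
    ArithmeticFunction.cardDistinctFactors_mul h] at h2
  have h3 := (ArithmeticFunction.cardDistinctFactors_eq_cardFactors_iff_squarefree hk0).2 hk
  omega

lemma exc_eq_zero {m : ℕ} (hm : m ≠ 0) : exc m = 0 ↔ Squarefree m := by
  rw [← ArithmeticFunction.cardDistinctFactors_eq_cardFactors_iff_squarefree hm]
  have h1 := exc_add m
  omega

lemma lam_sq (n : ℕ) : lam n * lam n = 1 := by
  unfold lam
  rw [← mul_pow]
  norm_num

/-! ### triples -/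

/-- the condition on triples without bounds -/
def TrOk (t c : ℤ) (e : Tr) : Prop :=
  1 ≤ e.1 ∧ 1 ≤ e.2.2 ∧ (e.1 : ℤ) * e.2.2 = Qp t c e.2.1 ∧ 0 ≤ 2 * e.2.1 + t

lemma mem_tri' {X₁ X₂ : ℝ} {e : Tr} :
    e ∈ tri t c X₁ X₂ ↔ TrOk t c e ∧ (e.1 : ℝ) ≤ X₁ ∧ (e.2.2 : ℝ) ≤ X₂ := by
  rw [mem_tri]
  unfold TrOk
  tauto

lemma NT_ne_zero {e : Tr} (h : TrOk t c e) : NT e ≠ 0 := by
  obtain ⟨h1, h2, -, -⟩ := h
  unfold NT
  exact Nat.mul_ne_zero (by omega) (by omega)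

lemma NT_Qp {e : Tr} (h : TrOk t c e) : ((NT e : ℕ) : ℤ) = Qp t c e.2.1 := by
  rw [← h.2.2.1]
  unfold NT
  push_cast
  rfl

lemma spl_of_sq (hG : Good t c) {e : Tr} (h : TrOk t c e) {l : ℕ} (hl : l.Prime)
    (h2 : l ^ 2 ∣ NT e) : Spl t c l := by
  refine hG.not_sq hl (n := e.2.1) ?_
  rw [← NT_Qp h]
  exact_mod_cast Int.natCast_dvd_natCast.2 h2

/-! ### the first transformation -/

/-- moving the factor `w` from one component to the other -/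
def Tm (k : Bool) (w : ℕ) (e e' : Tr) : Prop :=
  e'.2.1 = e.2.1 ∧
    (if k then e'.1 = e.1 * w ∧ e.2.2 = e'.2.2 * w else e.1 = e'.1 * w ∧ e'.2.2 = e.2.2 * w)

lemma Tm_inj {k : Bool} {w : ℕ} (hw : w ≠ 0) {e f e' : Tr}
    (h : Tm k w e e') (h' : Tm k w f e') : e = f := by
  unfold Tm at h h'
  obtain ⟨h1, h2⟩ := h
  obtain ⟨h1', h2'⟩ := h'
  cases k
  · simp only [Bool.false_eq_true, if_false] at h2 h2'
    refine Prod.ext (h2.1.trans h2'.1.symm) (Prod.ext (h1.symm.trans h1') ?_)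
    exact Nat.eq_of_mul_eq_mul_right (Nat.pos_of_ne_zero hw) (h2.2.symm.trans h2'.2)
  · simp only [if_true] at h2 h2'
    refine Prod.ext ?_ (Prod.ext (h1.symm.trans h1') (h2.2.trans h2'.2.symm))
    exact Nat.eq_of_mul_eq_mul_right (Nat.pos_of_ne_zero hw) (h2.1.symm.trans h2'.1)

lemma Tm_NT {k : Bool} {w : ℕ} {e e' : Tr} (h : Tm k w e e') : NT e' = NT e := by
  unfold Tm at h
  obtain ⟨h1, h2⟩ := h
  unfold NT
  cases k
  · simp only [Bool.false_eq_true, if_false] at h2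
    rw [h2.1, h2.2]; ring
  · simp only [if_true] at h2
    rw [h2.1, h2.2]; ring

lemma Tm_ok {k : Bool} {w : ℕ} {e e' : Tr} (h : Tm k w e e') (he : TrOk t c e) :
    TrOk t c e' := by
  have hN := Tm_NT h
  have hN0 := NT_ne_zero he
  rw [← hN] at hN0
  have h1 : e'.1 ≠ 0 := by
    intro h0; apply hN0; unfold NT; rw [h0, zero_mul]
  have h2 : e'.2.2 ≠ 0 := by
    intro h0; apply hN0; unfold NT; rw [h0, mul_zero]
  refine ⟨by omega, by omega, ?_, ?_⟩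
  · have h3 := NT_Qp he
    rw [← hN] at h3
    unfold NT at h3
    push_cast at h3
    rw [h3, h.1]
  · rw [h.1]; exact he.2.2.2

/-- bounds for the transformed triple -/
noncomputable def B1 (k : Bool) (w : ℕ) (X : ℝ) : ℝ := if k then X * w else X / w

/-- bounds for the transformed triple -/
noncomputable def B2 (k : Bool) (w : ℕ) (X : ℝ) : ℝ := if k then X / w else X * w

lemma Tm_tri {k : Bool} {w : ℕ} (hw : w ≠ 0) {e e' : Tr}
    {X : ℝ} (h : Tm k w e e') (he : e ∈ tri t c X X) :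
    e' ∈ tri t c (B1 k w X) (B2 k w X) := by
  rw [mem_tri'] at he
  rw [mem_tri']
  have hw0 : (0 : ℝ) < w := by exact_mod_cast Nat.pos_of_ne_zero hw
  refine ⟨Tm_ok h he.1, ?_, ?_⟩
  · unfold Tm at h
    unfold B1
    cases k
    · simp only [Bool.false_eq_true, if_false] at h ⊢
      rw [le_div_iff₀ hw0]
      have h1 := he.2.1
      rw [h.2.1] at h1
      push_cast at h1
      exact h1
    · simp only [if_true] at h ⊢
      rw [h.2.1]
      push_cast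
      exact mul_le_mul_of_nonneg_right he.2.1 hw0.le
  · unfold Tm at h
    unfold B2
    cases k
    · simp only [Bool.false_eq_true, if_false] at h ⊢
      rw [h.2.2]
      push_cast
      exact mul_le_mul_of_nonneg_right he.2.2 hw0.le
    · simp only [if_true] at h ⊢
      rw [le_div_iff₀ hw0]
      have h1 := he.2.2
      rw [h.2.2] at h1
      push_cast at h1
      exact h1

/-! ### the resolution step -/

/-- the resolution step -/
def Rs (t : ℤ) (q : ℕ) (e f₁ f₂ : Tr) : Prop :=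
  e.1 = q * f₁.1 ∧ f₁.2.1 = e.2.1 + f₁.1 ∧
    (f₁.2.2 : ℤ) = f₁.1 + (2 * e.2.1 + t) + q * e.2.2 ∧
    f₂.1 = f₁.2.2 ∧ f₂.2.1 = e.2.1 + q * e.2.2 ∧ f₂.2.2 = q * e.2.2

lemma Rs_of_dvd {q : ℕ} {e : Tr} (he : TrOk t c e) (h : q ∣ e.1) :
    ∃ f₁ f₂ : Tr, Rs t q e f₁ f₂ := by
  obtain ⟨a, ha⟩ := h
  obtain ⟨h1, h2, h3, h4⟩ := he
  set x : ℤ := (a : ℤ) + (2 * e.2.1 + t) + q * e.2.2 with hx
  have hx0 : 0 ≤ x := by positivity
  refine ⟨(a, e.2.1 + a, x.toNat), (x.toNat, e.2.1 + q * e.2.2, q * e.2.2), ha, rfl, ?_, rfl, rfl,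
    rfl⟩
  simp only
  rw [Int.toNat_of_nonneg hx0]

lemma Rs_ok {q : ℕ} {e f₁ f₂ : Tr} (he : TrOk t c e) (h : Rs t q e f₁ f₂) :
    TrOk t c f₁ ∧ TrOk t c f₂ := by
  obtain ⟨h1, h2, h3, h4⟩ := he
  obtain ⟨r1, r2, r3, r4, r5, r6⟩ := h
  have hq : q ≠ 0 := by
    rintro rfl
    rw [zero_mul] at r1
    omega
  have ha : f₁.1 ≠ 0 := by
    intro h0
    rw [h0, mul_zero] at r1
    omega
  have hq1 : 1 ≤ q := Nat.one_le_iff_ne_zero.2 hq
  have ha1 : 1 ≤ f₁.1 := Nat.one_le_iff_ne_zero.2 ha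
  have hb1 : 1 ≤ q * e.2.2 := Nat.one_le_iff_ne_zero.2 (Nat.mul_ne_zero hq (by omega))
  have hprod : (f₁.1 : ℤ) * ((q : ℤ) * e.2.2) = Qp t c e.2.1 := by
    rw [← h3, r1]
    push_cast
    ring
  have hsp := split_eq hprod
  have hx1 : (1 : ℤ) ≤ f₁.2.2 := by
    rw [r3]
    have e1 : (1 : ℤ) ≤ f₁.1 := by exact_mod_cast ha1
    have e2 : (0 : ℤ) ≤ (q : ℤ) * e.2.2 := by positivity
    linarith
  have hx1' : 1 ≤ f₁.2.2 := by exact_mod_cast hx1
  refine ⟨⟨ha1, hx1', ?_, ?_⟩, ⟨by rw [r4]; exact hx1', by rw [r6]; exact hb1, ?_, ?_⟩⟩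
  · rw [r3, r2]
    exact hsp.1
  · rw [r2]
    have e1 : (0 : ℤ) ≤ f₁.1 := by positivity
    linarith
  · rw [r4, r6, r3, r5]
    push_cast
    exact hsp.2
  · rw [r5]
    have e2 : (0 : ℤ) ≤ (q : ℤ) * e.2.2 := by positivity
    linarith

lemma Rs_inj1 {q : ℕ} (hq : q ≠ 0) {e e' f₁ f₂ f₂' : Tr}
    (h : Rs t q e f₁ f₂) (h' : Rs t q e' f₁ f₂') : e = e' := by
  obtain ⟨r1, r2, r3, r4, r5, r6⟩ := h
  obtain ⟨r1', r2', r3', r4', r5', r6'⟩ := h'
  have h1 : e.2.1 = e'.2.1 := by linarith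
  refine Prod.ext (r1.trans r1'.symm) (Prod.ext h1 ?_)
  rw [r3, h1] at r3'
  have h2 : (q : ℤ) * e.2.2 = (q : ℤ) * e'.2.2 := by linarith
  have h3 : q * e.2.2 = q * e'.2.2 := by exact_mod_cast h2
  exact Nat.eq_of_mul_eq_mul_left (Nat.pos_of_ne_zero hq) h3

lemma Rs_inj2 {q : ℕ} (hq : q ≠ 0) {e e' f₁ f₁' f₂ : Tr}
    (h : Rs t q e f₁ f₂) (h' : Rs t q e' f₁' f₂) : e = e' := by
  obtain ⟨r1, r2, r3, r4, r5, r6⟩ := h
  obtain ⟨r1', r2', r3', r4', r5', r6'⟩ := h'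
  have h3 : q * e.2.2 = q * e'.2.2 := r6.symm.trans r6'
  have h2 : (q : ℤ) * e.2.2 = (q : ℤ) * e'.2.2 := by exact_mod_cast h3
  have h1 : e.2.1 = e'.2.1 := by linarith
  have h4 : f₁.2.2 = f₁'.2.2 := r4.symm.trans r4'
  have h5 : (f₁.1 : ℤ) = f₁'.1 := by
    have h6 : (f₁.2.2 : ℤ) = f₁'.2.2 := by exact_mod_cast h4
    rw [r3, r3', h1, h2] at h6
    linarith
  have h7 : f₁.1 = f₁'.1 := by exact_mod_cast h5
  refine Prod.ext ?_ (Prod.ext h1 (Nat.eq_of_mul_eq_mul_left (Nat.pos_of_ne_zero hq) h3))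
  rw [r1, r1', h7]

/-- `q x = A + (2n+t) q + q^2 B` -/
lemma Rs_MM {q : ℕ} {e f₁ f₂ : Tr} (h : Rs t q e f₁ f₂) :
    (q : ℤ) * f₁.2.2 = MM t e.1 e.2.1 e.2.2 q := by
  obtain ⟨r1, r2, r3, r4, r5, r6⟩ := h
  unfold MM
  rw [r3, r1]
  push_cast
  ring

lemma Rs_NT {q : ℕ} {e f₁ f₂ : Tr} (h : Rs t q e f₁ f₂) :
    NT e = f₁.1 * (q * e.2.2) ∧ NT f₁ = f₁.1 * f₁.2.2 ∧ NT f₂ = (q * e.2.2) * f₁.2.2 := by
  obtain ⟨r1, r2, r3, r4, r5, r6⟩ := h
  unfold NT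
  refine ⟨?_, rfl, ?_⟩
  · rw [r1]; ring
  · rw [r4, r6]; ring

/-- local analysis -/
lemma local_key (hG : Good t c) {z q : ℕ} {L : ℝ} {e f₁ f₂ : Tr}
    (he : TrOk t c e) (h : Rs t q e f₁ f₂)
    (hloc : ∀ l : ℕ, Spl t c l → l ≤ z →
      ¬ ((l : ℤ) ∣ MM t e.1 e.2.1 e.2.2 q ∧
        ((l : ℤ) ∣ (e.1 : ℤ) * e.2.2 ∨ (l : ℤ) ^ 2 ∣ MM t e.1 e.2.1 e.2.2 q)))
    (hmid : ∀ l : ℕ, Spl t c l → z < l → (l : ℝ) ≤ L → l ∣ f₁.2.2 →
      ¬ (l ∣ NT e ∨ l ^ 2 ∣ f₁.2.2))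
    (hbig : ∀ l : ℕ, l.Prime → L < l → ¬ l ^ 2 ∣ NT f₁ ∧ ¬ l ^ 2 ∣ NT f₂) :
    ∀ l : ℕ, l.Prime → l ∣ f₁.2.2 → ¬ l ∣ NT e ∧ ¬ l ^ 2 ∣ f₁.2.2 := by
  intro l hl hlx
  obtain ⟨hf1, hf2⟩ := Rs_ok he h
  obtain ⟨hN, hN1, hN2⟩ := Rs_NT h
  have hMM := Rs_MM h
  -- a general implication
  have gen : (l ∣ NT e ∨ l ^ 2 ∣ f₁.2.2) → l ^ 2 ∣ NT f₁ ∨ l ^ 2 ∣ NT f₂ := by
    rintro (h1 | h1)
    · rw [hN] at h1
      rcases (Nat.Prime.dvd_mul hl).1 h1 with h3 | h3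
      · left
        rw [hN1, sq]
        exact mul_dvd_mul h3 hlx
      · right
        rw [hN2, sq]
        exact mul_dvd_mul h3 hlx
    · left
      rw [hN1]
      exact h1.trans (Dvd.intro_left _ rfl)
  have main : ¬ (l ∣ NT e ∨ l ^ 2 ∣ f₁.2.2) := by
    intro hcon
    have hspl : Spl t c l := by
      rcases gen hcon with h3 | h3
      · exact spl_of_sq hG hf1 hl h3
      · exact spl_of_sq hG hf2 hl h3
    by_cases hlz : l ≤ z
    · refine hloc l hspl hlz ⟨?_, ?_⟩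
      · rw [← hMM]
        exact Dvd.dvd.mul_left (Int.natCast_dvd_natCast.2 hlx) _
      · rcases hcon with h5 | h5
        · left
          have : ((NT e : ℕ) : ℤ) = e.1 * e.2.2 := by unfold NT; push_cast; rfl
          rw [← this]
          exact Int.natCast_dvd_natCast.2 h5
        · right
          rw [← hMM]
          have : ((l ^ 2 : ℕ) : ℤ) ∣ (f₁.2.2 : ℤ) := Int.natCast_dvd_natCast.2 h5
          push_cast at this
          exact Dvd.dvd.mul_left this _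
    · push Not at hlz
      by_cases hL : (l : ℝ) ≤ L
      · exact hmid l hspl hlz hL hlx hcon
      · push Not at hL
        have hb := hbig l hl hL
        rcases gen hcon with h5 | h5
        · exact hb.1 h5
        · exact hb.2 h5
  push Not at main
  exact main

/-- the excess decreases -/
lemma exc_key {p q : ℕ} {e f₁ f₂ : Tr}
    (he : TrOk t c e) (hq : q.Prime) (hqp : q ≠ p) (h : Rs t q e f₁ f₂)
    (hx : ∀ l : ℕ, l.Prime → l ∣ f₁.2.2 → ¬ l ∣ NT e ∧ ¬ l ^ 2 ∣ f₁.2.2)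
    (hp : (p = 1 ∧ exc (NT e) = 0) ∨ (p.Prime ∧ p ∣ e.1 ∧ p ∣ e.2.2)) :
    exc (NT f₁) ≤ exc (NT e) - 1 ∧ exc (NT f₂) ≤ exc (NT e) - 1 := by
  obtain ⟨hf1, hf2⟩ := Rs_ok he h
  obtain ⟨hNe, hN1, hN2⟩ := Rs_NT h
  have hN := NT_ne_zero he
  have hNe0 : f₁.1 * (q * e.2.2) ≠ 0 := hNe ▸ hN
  have ha0 : f₁.1 ≠ 0 := left_ne_zero_of_mul hNe0
  have hb0 : q * e.2.2 ≠ 0 := right_ne_zero_of_mul hNe0
  have hsqf : Squarefree f₁.2.2 := by
    rw [Nat.squarefree_iff_prime_squarefree]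
    intro l hl hll
    rw [← sq] at hll
    exact (hx l hl ((dvd_pow_self l two_ne_zero).trans hll)).2 hll
  have hcop : Nat.Coprime (NT e) f₁.2.2 := by
    apply Nat.Coprime.symm
    apply Nat.coprime_of_dvd
    intro l hl h1 h2
    exact (hx l hl h1).1 h2
  have hcop1 : Nat.Coprime f₁.1 f₁.2.2 :=
    Nat.Coprime.coprime_dvd_left (hNe ▸ Dvd.intro _ rfl) hcop
  have hcop2 : Nat.Coprime (q * e.2.2) f₁.2.2 :=
    Nat.Coprime.coprime_dvd_left (hNe ▸ Dvd.intro_left _ rfl) hcop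
  rw [hN1, exc_mul_sqf ha0 hsqf hcop1, hN2, exc_mul_sqf hb0 hsqf hcop2]
  rcases hp with ⟨_, h0⟩ | ⟨hp, hp1, hp2⟩
  · have h1 : exc f₁.1 ≤ exc (NT e) := exc_mono (hNe ▸ Dvd.intro _ rfl) hN
    have h2 : exc (q * e.2.2) ≤ exc (NT e) := exc_mono (hNe ▸ Dvd.intro_left _ rfl) hN
    omega
  · have hpa : p ∣ f₁.1 := by
      rw [h.1] at hp1
      rcases (Nat.Prime.dvd_mul hp).1 hp1 with h3 | h3
      · exact absurd ((Nat.prime_dvd_prime_iff_eq hp hq).1 h3).symm hqp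
      · exact h3
    have hpb : p ∣ q * e.2.2 := hp2.trans (Dvd.intro_left _ rfl)
    have h1 : exc (p * f₁.1) ≤ exc (NT e) := by
      apply exc_mono _ hN
      rw [hNe, mul_comm p]
      exact mul_dvd_mul dvd_rfl hpb
    have h2 : exc (p * (q * e.2.2)) ≤ exc (NT e) := by
      apply exc_mono _ hN
      rw [hNe]
      exact mul_dvd_mul hpa dvd_rfl
    rw [exc_prime_mul hp ha0 hpa] at h1
    rw [exc_prime_mul hp hb0 hpb] at h2
    omega

/-- the Liouville signs -/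
lemma lam_key {q : ℕ} {e f₁ f₂ : Tr} (he : TrOk t c e)
    (h : Rs t q e f₁ f₂) : lam (NT f₁) * lam (NT f₂) = lam (NT e) := by
  obtain ⟨hf1, hf2⟩ := Rs_ok he h
  obtain ⟨hNe, hN1, hN2⟩ := Rs_NT h
  have hN := NT_ne_zero he
  have hx0 : f₁.2.2 ≠ 0 := by have := hf1.2.1; omega
  have hprod : NT f₁ * NT f₂ = NT e * (f₁.2.2 * f₁.2.2) := by
    rw [hN1, hN2, hNe]; ring
  rw [← lam_mul (NT_ne_zero hf1) (NT_ne_zero hf2), hprod, lam_mul hN (Nat.mul_ne_zero hx0 hx0),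
    lam_mul hx0 hx0, lam_sq, mul_one]

/-- the constant of the size of the new triples -/
def Kn (t c : ℤ) : ℕ := 6 + (t ^ 2 - 4 * c).natAbs

/-- the size of the new triples -/
lemma size_key {q : ℕ} {W X : ℝ} {e f₁ f₂ : Tr}
    (he : TrOk t c e) (hq : 1 ≤ q) (h : Rs t q e f₁ f₂)
    (hX : 1 ≤ X) (hW : 1 ≤ W)
    (h1 : (e.1 : ℝ) ≤ W * X) (h2 : (e.2.2 : ℝ) ≤ W * X) :
    f₁ ∈ tri t c (Kn t c * q * W * X) (Kn t c * q * W * X) ∧
      f₂ ∈ tri t c (Kn t c * q * W * X) (Kn t c * q * W * X) := by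
  obtain ⟨hf1, hf2⟩ := Rs_ok he h
  obtain ⟨r1, r2, r3, r4, r5, r6⟩ := h
  have hq1 : (1 : ℝ) ≤ q := by exact_mod_cast hq
  set Y : ℝ := W * X with hY
  have hY1 : 1 ≤ Y := by nlinarith
  set D : ℕ := (t ^ 2 - 4 * c).natAbs with hD
  have hK : ((Kn t c : ℕ) : ℝ) = 6 + D := by unfold Kn; push_cast; rfl
  -- size of `2 n + t`
  have hd : (2 * e.2.1 + t) ^ 2 = 4 * ((e.1 : ℤ) * e.2.2) + (t ^ 2 - 4 * c) := by
    rw [he.2.2.1]; unfold Qp; ring
  have hdR : ((2 * e.2.1 + t : ℤ) : ℝ) ^ 2 ≤ 4 * (Y * Y) + D := by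
    have e1 : ((2 * e.2.1 + t : ℤ) : ℝ) ^ 2 = 4 * ((e.1 : ℝ) * e.2.2) + ((t ^ 2 - 4 * c : ℤ) : ℝ) := by
      exact_mod_cast hd
    have e2 : ((t ^ 2 - 4 * c : ℤ) : ℝ) ≤ D := by
      have : (t ^ 2 - 4 * c) ≤ ((D : ℕ) : ℤ) := by
        rw [hD]; exact Int.le_natAbs
      exact_mod_cast this
    have e3 : (e.1 : ℝ) * e.2.2 ≤ Y * Y := by
      have : (0 : ℝ) ≤ e.1 := by positivity
      have : (0 : ℝ) ≤ e.2.2 := by positivity
      gcongr
    linarith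
  have hn : ((2 * e.2.1 + t : ℤ) : ℝ) ≤ (4 + D) * Y := by
    have e0 : (0 : ℝ) ≤ D := by positivity
    have e1 : ((2 * e.2.1 + t : ℤ) : ℝ) ^ 2 ≤ ((4 + D) * Y) ^ 2 := by
      refine hdR.trans ?_
      have : (D : ℝ) ≤ D * (Y * Y) := by
        have : (1 : ℝ) ≤ Y * Y := by nlinarith
        nlinarith
      have e5 : ((4 + (D : ℝ)) * Y) ^ 2 = (16 + 8 * D + D * D) * (Y * Y) := by ring
      rw [e5]
      have : (0 : ℝ) ≤ Y * Y := by positivity
      have : (0 : ℝ) ≤ D * (Y * Y) := by positivity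
      have : (0 : ℝ) ≤ D * D * (Y * Y) := by positivity
      nlinarith
    have e2 : (0 : ℝ) ≤ (4 + D) * Y := by positivity
    exact le_of_sq_le_sq e1 e2
  have ha : (f₁.1 : ℝ) ≤ Y := by
    have e1 : (e.1 : ℝ) = q * f₁.1 := by rw [r1]; push_cast; rfl
    have : (0 : ℝ) ≤ f₁.1 := by positivity
    nlinarith
  have hb : ((q : ℝ) * e.2.2) ≤ q * Y := mul_le_mul_of_nonneg_left h2 (by positivity)
  have hx : (f₁.2.2 : ℝ) ≤ (6 + D) * q * Y := by
    have e1 : (f₁.2.2 : ℝ) = f₁.1 + ((2 * e.2.1 + t : ℤ) : ℝ) + q * e.2.2 := by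
      exact_mod_cast congrArg (fun s : ℤ => (s : ℝ)) r3
    rw [e1]
    have e2 : Y ≤ q * Y := by nlinarith
    have e3 : (4 + (D : ℝ)) * Y ≤ (4 + D) * (q * Y) := by
      apply mul_le_mul_of_nonneg_left e2 (by positivity)
    nlinarith
  have hD0 : (0 : ℝ) ≤ D := by positivity
  have hqY : 0 ≤ (q : ℝ) * Y := by positivity
  have hYq : Y ≤ q * Y := by nlinarith
  have e6 : (Kn t c : ℝ) * q * W * X = (6 + D) * q * Y := by rw [hK, hY]; ring
  have e7 : (q : ℝ) * Y ≤ (6 + D) * q * Y := by nlinarith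
  rw [mem_tri', mem_tri', e6]
  refine ⟨⟨hf1, by linarith, hx⟩, ⟨hf2, ?_, ?_⟩⟩
  · rw [r4]; exact hx
  · rw [r6]
    push_cast
    linarith

end Pool.Agent.W500.GT
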