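import Pool.Agent.W500.GT.RestA
import Pool.Agent.Helper591.APRec

/-!
Project GT, task GT-10 (helper500, after helper285): types, auxiliary primes, constants.
-/

set_option autoImplicit false

namespace Pool.Agent.W500.GT

open Finset Filter
open Pool.Agent.H376R2.MR (lam)
open Pool.Agent.W78.GT
open Pool.Agent.Helper591.APRec (g g_nonneg not_summable_g)

variable {t c : ℤ}

/-! ### types -/

open scoped Classical in
/-- the split primes `≤ z` -/
noncomputable def PP (t c : ℤ) (z : ℕ) : Finset ℕ := (range (z + 1)).filter (fun p => Spl t c p)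

lemma mem_PP {z p : ℕ} : p ∈ PP t c z ↔ Spl t c p ∧ p ≤ z := by
  classical
  unfold PP
  rw [mem_filter, mem_range, Nat.lt_succ_iff]
  tauto

/-- the types over a prime: (direction, moved factor, prime) -/
def T3 (p : ℕ) : Finset (Bool × ℕ × ℕ) := {(false, 1, p), (false, p, p), (true, p, p)}

/-- the types -/
noncomputable def TT (t c : ℤ) (z : ℕ) : Finset (Bool × ℕ × ℕ) :=
  {(false, 1, 1)} ∪ (PP t c z).biUnion T3

lemma TT_prop {z : ℕ} {s : Bool × ℕ × ℕ} (hs : s ∈ TT t c z) :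
    (s.2.2 = 1 ∨ (Spl t c s.2.2 ∧ s.2.2 ≤ z)) ∧ (s.2.1 = 1 ∨ s.2.1 = s.2.2) := by
  unfold TT at hs
  rw [mem_union, mem_singleton, mem_biUnion] at hs
  rcases hs with rfl | ⟨p, hp, hs⟩
  · simp
  · rw [mem_PP] at hp
    unfold T3 at hs
    simp only [mem_insert, mem_singleton] at hs
    rcases hs with rfl | rfl | rfl
    · exact ⟨Or.inr hp, Or.inl rfl⟩
    · exact ⟨Or.inr hp, Or.inr rfl⟩
    · exact ⟨Or.inr hp, Or.inr rfl⟩

lemma TT_ne_zero {z : ℕ} {s : Bool × ℕ × ℕ} (hs : s ∈ TT t c z) : s.2.1 ≠ 0 := by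
  obtain ⟨h1, h2⟩ := TT_prop hs
  rcases h2 with h2 | h2
  · rw [h2]; exact one_ne_zero
  · rw [h2]
    rcases h1 with h1 | h1
    · rw [h1]; exact one_ne_zero
    · exact h1.1.1.ne_zero

lemma TT_le {z : ℕ} (hz : 1 ≤ z) {s : Bool × ℕ × ℕ} (hs : s ∈ TT t c z) : s.2.1 ≤ z := by
  obtain ⟨h1, h2⟩ := TT_prop hs
  rcases h2 with h2 | h2
  · rw [h2]; exact hz
  · rw [h2]
    rcases h1 with h1 | h1
    · rw [h1]; exact hz
    · exact h1.2

lemma TT_one (z : ℕ) : ((false, 1, 1) : Bool × ℕ × ℕ) ∈ TT t c z := by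
  unfold TT
  simp

lemma TT_mem {z p : ℕ} (hp : p ∈ PP t c z) {s : Bool × ℕ × ℕ} (h : s ∈ T3 p) :
    s ∈ TT t c z := by
  unfold TT
  rw [mem_union, mem_biUnion]
  exact Or.inr ⟨p, hp, h⟩

/-- every triple has a type -/
lemma exists_type (hG : Good t c) {z : ℕ} {e : Tr} (he : TrOk t c e)
    (hsq : ¬ ∃ l : ℕ, l.Prime ∧ z < l ∧ l ^ 2 ∣ NT e) :
    ∃ s ∈ TT t c z, ∃ e', Tm s.1 s.2.1 e e' ∧
      ((s.2.2 = 1 ∧ exc (NT e) = 0) ∨
        (s.2.2.Prime ∧ s.2.2 ∣ e'.1 ∧ s.2.2 ∣ e'.2.2)) := by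
  have hN := NT_ne_zero he
  by_cases hex : exc (NT e) = 0
  · refine ⟨(false, 1, 1), TT_one z, e, ?_, Or.inl ⟨rfl, hex⟩⟩
    unfold Tm
    simp
  · rw [exc_eq_zero hN, Nat.squarefree_iff_prime_squarefree] at hex
    push Not at hex
    obtain ⟨p, hp, hpp⟩ := hex
    rw [← sq] at hpp
    have hpz : p ≤ z := by
      by_contra hcon
      exact hsq ⟨p, hp, by omega, hpp⟩
    have hspl := spl_of_sq hG he hp hpp
    have hpP : p ∈ PP t c z := mem_PP.2 ⟨hspl, hpz⟩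
    have hpN : p ∣ e.1 * e.2.2 := (dvd_pow_self p two_ne_zero).trans hpp
    have hpp' : p ^ 2 ∣ e.1 * e.2.2 := hpp
    by_cases h1 : p ∣ e.1
    · by_cases h2 : p ∣ e.2.2
      · refine ⟨(false, 1, p), TT_mem hpP (by unfold T3; simp), e, ?_, Or.inr ⟨hp, h1, h2⟩⟩
        unfold Tm
        simp
      · have hsq1 : p ^ 2 ∣ e.1 := by
          have hc : Nat.Coprime (p ^ 2) e.2.2 :=
            Nat.Coprime.pow_left 2 ((Nat.Prime.coprime_iff_not_dvd hp).2 h2)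
          exact hc.dvd_of_dvd_mul_right hpp'
        obtain ⟨a, ha⟩ := h1
        refine ⟨(false, p, p), TT_mem hpP (by unfold T3; simp), (a, e.2.1, e.2.2 * p), ?_,
          Or.inr ⟨hp, ?_, ?_⟩⟩
        · unfold Tm
          simp only [Bool.false_eq_true, if_false]
          exact ⟨trivial, by rw [ha, mul_comm], trivial⟩
        · rw [ha, sq] at hsq1
          exact Nat.dvd_of_mul_dvd_mul_left hp.pos hsq1
        · exact Dvd.intro_left _ rfl
    · have h2 : p ∣ e.2.2 := by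
        rcases (Nat.Prime.dvd_mul hp).1 hpN with h | h
        · exact absurd h h1
        · exact h
      have hsq2 : p ^ 2 ∣ e.2.2 := by
        have hc : Nat.Coprime (p ^ 2) e.1 :=
          Nat.Coprime.pow_left 2 ((Nat.Prime.coprime_iff_not_dvd hp).2 h1)
        exact hc.dvd_of_dvd_mul_left hpp'
      obtain ⟨a, ha⟩ := h2
      refine ⟨(true, p, p), TT_mem hpP (by unfold T3; simp), (e.1 * p, e.2.1, a), ?_,
        Or.inr ⟨hp, ?_, ?_⟩⟩
      · unfold Tm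
        simp only [if_true]
        exact ⟨trivial, trivial, by rw [ha, mul_comm]⟩
      · exact Dvd.intro_left _ rfl
      · rw [ha, sq] at hsq2
        exact Nat.dvd_of_mul_dvd_mul_left hp.pos hsq2

/-- a prime `q` which does not divide the moved factor stays a divisor of the first component -/
lemma dvd_Tm {k : Bool} {w : ℕ} {e e' : Tr}
    (h : Tm k w e e') {q : ℕ} (hq : q.Prime) (hne : ¬ q ∣ w)
    (hd : q ∣ e.1) : q ∣ e'.1 := by
  unfold Tm at h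
  cases k
  · simp only [Bool.false_eq_true, if_false] at h
    rw [h.2.1] at hd
    rcases (Nat.Prime.dvd_mul hq).1 hd with h1 | h1
    · exact h1
    · exact absurd h1 hne
  · simp only [if_true] at h
    rw [h.2.1]
    exact hd.trans (Dvd.intro _ rfl)

/-! ### auxiliary primes -/

lemma g_le_one {q : ℕ} (a : ZMod q) (n : ℕ) : g a n ≤ 1 := by
  unfold g
  split_ifs with h
  · rw [div_le_one (by exact_mod_cast h.1.pos)]
    exact_mod_cast h.1.one_lt.le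
  · exact zero_le_one

/-- finite sets of primes in a residue class with prescribed reciprocal sum -/
lemma exists_QQ {M r : ℕ} (hM : 0 < M) (hr : r.Coprime M) (N : ℕ) {S : ℝ} (hS : 0 ≤ S) :
    ∃ Q : Finset ℕ, (∀ q ∈ Q, q.Prime ∧ q ≡ r [MOD M] ∧ N < q) ∧ S ≤ ∑ q ∈ Q, 1 / (q : ℝ) ∧
      ∑ q ∈ Q, 1 / (q : ℝ) ≤ S + 1 := by
  classical
  have : NeZero M := ⟨hM.ne'⟩
  have hu : IsUnit (r : ZMod M) := (ZMod.isUnit_iff_coprime r M).2 hr
  have hns := not_summable_g hu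
  rw [not_summable_iff_tendsto_nat_atTop_of_nonneg (g_nonneg _)] at hns
  -- the partial sums beyond `N`
  have hex : ∃ n : ℕ, S ≤ ∑ i ∈ Ico (N + 1) n, g (r : ZMod M) i := by
    obtain ⟨n, hn⟩ := (hns.eventually (eventually_ge_atTop
      (S + ∑ i ∈ range (N + 1), g (r : ZMod M) i))).exists_forall_of_atTop
    have h1 := hn (max n (N + 1)) (le_max_left _ _)
    refine ⟨max n (N + 1), ?_⟩
    rw [← Finset.sum_range_add_sum_Ico _ (le_max_right n (N + 1))] at h1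
    linarith
  obtain ⟨n, hn, hmin⟩ : ∃ n, S ≤ ∑ i ∈ Ico (N + 1) n, g (r : ZMod M) i ∧
      ∀ k < n, ¬ S ≤ ∑ i ∈ Ico (N + 1) k, g (r : ZMod M) i :=
    ⟨Nat.find hex, Nat.find_spec hex, fun k hk => Nat.find_min hex hk⟩
  have hup : ∑ i ∈ Ico (N + 1) n, g (r : ZMod M) i ≤ S + 1 := by
    by_cases h : N + 1 < n
    · obtain ⟨k, rfl⟩ : ∃ k, n = k + 1 := ⟨n - 1, by omega⟩
      rw [Finset.sum_Ico_succ_top (by omega)]
      have h1 := hmin k (Nat.lt_succ_self k)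
      have h2 := g_le_one (r : ZMod M) k
      push Not at h1
      linarith
    · rw [Finset.Ico_eq_empty (by omega), Finset.sum_empty]
      linarith
  have hsum : ∑ q ∈ (Ico (N + 1) n).filter (fun q : ℕ => q.Prime ∧ (q : ZMod M) = r), 1 / (q : ℝ) =
      ∑ i ∈ Ico (N + 1) n, g (r : ZMod M) i := by
    rw [Finset.sum_filter]
    rfl
  refine ⟨(Ico (N + 1) n).filter (fun q : ℕ => q.Prime ∧ (q : ZMod M) = r), ?_, ?_, ?_⟩
  · intro q hq
    rw [mem_filter, mem_Ico] at hq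
    refine ⟨hq.2.1, ?_, by omega⟩
    exact (ZMod.natCast_eq_natCast_iff _ _ _).1 hq.2.2
  · rw [hsum]; exact hn
  · rw [hsum]; exact hup

lemma mz_pos (t c : ℤ) (z : ℕ) : 0 < mz t c z := by
  classical
  unfold mz
  apply Finset.prod_pos
  intro l hl
  rw [mem_filter] at hl
  exact pow_pos hl.2.1.pos 2

lemma mz_le (t c : ℤ) (z : ℕ) : mz t c z ≤ 16 ^ z := by
  classical
  unfold mz
  rw [Finset.prod_pow]
  have h1 : ∏ l ∈ (range (z + 1)).filter (fun l => Spl t c l), l ≤ primorial z := by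
    unfold primorial
    apply Finset.prod_le_prod_of_subset_of_one_le'
    · intro l hl
      rw [mem_filter] at hl ⊢
      exact ⟨hl.1, hl.2.1⟩
    · intro l hl _
      rw [mem_filter] at hl
      exact hl.2.one_lt.le
  calc (∏ l ∈ (range (z + 1)).filter (fun l => Spl t c l), l) ^ 2
      ≤ (4 ^ z) ^ 2 := Nat.pow_le_pow_left (h1.trans (primorial_le_four_pow z)) 2
    _ = 16 ^ z := by rw [← pow_mul, mul_comm z 2, pow_mul]; norm_num

lemma D4_pos (hG : Good t c) : 0 < D4 t c := by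
  unfold D4
  have : t ^ 2 - 4 * c ≠ 0 := by
    intro h
    apply hG.nsq
    rw [h]
    exact IsSquare.zero
  have := Int.natAbs_pos.2 this
  omega

lemma prod_le_exp (Q : Finset ℕ) (hQ : ∀ q ∈ Q, q.Prime) :
    ∏ q ∈ Q, (1 - 1 / (q : ℝ)) ≤ Real.exp (-∑ q ∈ Q, 1 / (q : ℝ)) := by
  rw [← Finset.sum_neg_distrib, Real.exp_sum]
  apply Finset.prod_le_prod
  · intro q hq
    have : (1 : ℝ) ≤ q := by exact_mod_cast (hQ q hq).one_lt.le
    rw [sub_nonneg, div_le_one (by linarith)]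
    exact this
  · intro q _
    have := Real.add_one_le_exp (-(1 / (q : ℝ)))
    linarith

lemma sum_PP_le (t c : ℤ) (z : ℕ) : ∑ p ∈ PP t c z, 1 / (p : ℝ) ^ 2 ≤ 1 := by
  rcases Nat.eq_zero_or_pos z with rfl | hz
  · have : PP t c 0 = ∅ := by
      rw [Finset.eq_empty_iff_forall_notMem]
      intro p hp
      rw [mem_PP] at hp
      have := hp.1.1.pos
      omega
    rw [this]
    simp
  · have h1 := sum_Ioc_inv_sq_le_sub (α := ℝ) one_ne_zero (show 1 ≤ z from hz)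
    have h2 : ∑ p ∈ PP t c z, 1 / (p : ℝ) ^ 2 ≤ ∑ i ∈ Ioc 1 z, ((i : ℝ) ^ 2)⁻¹ := by
      calc ∑ p ∈ PP t c z, 1 / (p : ℝ) ^ 2 = ∑ p ∈ PP t c z, ((p : ℝ) ^ 2)⁻¹ := by
            apply Finset.sum_congr rfl
            intro p _
            rw [one_div]
        _ ≤ ∑ i ∈ Ioc 1 z, ((i : ℝ) ^ 2)⁻¹ := by
            apply Finset.sum_le_sum_of_subset_of_nonneg
            · intro p hp
              rw [mem_PP] at hp
              rw [mem_Ioc]
              exact ⟨hp.1.1.one_lt, hp.2⟩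
            · intro i _ _
              positivity
    have h3 : (0 : ℝ) ≤ (z : ℝ)⁻¹ := by positivity
    have h4 : ((1 : ℕ) : ℝ)⁻¹ = 1 := by simp
    rw [h4] at h1
    linarith

/-- the choice of `z` -/
lemma exists_z {C1 C2 δ lK : ℝ} (hC1 : 0 < C1) (hδ : 0 < δ) (hlK : 0 ≤ lK) :
    ∃ z : ℕ, 5 ≤ z ∧ C2 / z ≤ δ / 8 ∧
      6 * (C1 * (lK + z * Real.log 16 + 1 + 1) / (z * Real.log z)) ≤ δ / 8 := by
  have hl16 : 0 < Real.log 16 := Real.log_pos (by norm_num)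
  set c := lK + Real.log 16 + 2 with hc
  have hc0 : 0 < c := by positivity
  obtain ⟨z, hz5, hz1, hz2⟩ : ∃ z : ℕ, 5 ≤ z ∧ 8 * C2 / δ ≤ z ∧ 48 * C1 * c / δ ≤ Real.log z := by
    have t1 : Tendsto (fun z : ℕ => (z : ℝ)) atTop atTop := tendsto_natCast_atTop_atTop
    have t2 : Tendsto (fun z : ℕ => Real.log (z : ℝ)) atTop atTop :=
      Real.tendsto_log_atTop.comp t1
    have h := ((eventually_ge_atTop 5).and (t1.eventually_ge_atTop (8 * C2 / δ))).and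
      (t2.eventually_ge_atTop (48 * C1 * c / δ))
    obtain ⟨z, ⟨h1, h2⟩, h3⟩ := h.exists
    exact ⟨z, h1, h2, h3⟩
  have hzR : (5 : ℝ) ≤ z := by exact_mod_cast hz5
  have hz0 : (0 : ℝ) < z := by linarith
  have hlz : 0 < Real.log z := Real.log_pos (by linarith)
  refine ⟨z, hz5, ?_, ?_⟩
  · rw [div_le_iff₀ hz0]
    rw [div_le_iff₀ hδ] at hz1
    nlinarith
  · rw [div_le_iff₀ hδ] at hz2
    have h1 : lK + z * Real.log 16 + 1 + 1 ≤ z * c := by
      rw [hc]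
      nlinarith
    have h2 : C1 * (lK + z * Real.log 16 + 1 + 1) / (z * Real.log z) ≤ C1 * c / Real.log z := by
      rw [div_le_div_iff₀ (by positivity) hlz]
      have := mul_le_mul_of_nonneg_left h1 (by positivity : 0 ≤ C1 * Real.log z)
      nlinarith
    have h3 : C1 * c / Real.log z ≤ δ / 48 := by
      rw [div_le_iff₀ hlz]
      nlinarith
    linarith

/-- candidates for auxiliary primes -/
lemma exists_cand (hG : Good t c) (hloc : S_LOCT t c) (z : ℕ) {S0 : ℝ} (hS0 : 0 ≤ S0) :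
    ∃ (RR : Finset ℕ) (QQ : ℕ → Finset ℕ) (cl : Tr → ℕ),
      RR.card ≤ D4 t c * mz t c z ∧
      (∀ e, cl e ∈ RR) ∧
      (∀ r ∈ RR, (∀ q ∈ QQ r, q.Prime ∧ q ≡ 1 [MOD D4 t c] ∧ z ^ 2 < q) ∧
        S0 ≤ ∑ q ∈ QQ r, 1 / (q : ℝ) ∧ ∑ q ∈ QQ r, 1 / (q : ℝ) ≤ S0 + 1) ∧
      (∀ e f : Tr, Cg (mz t c z) e f → cl e = cl f) ∧
      (∀ e : Tr, TrOk t c e → ∀ q ∈ QQ (cl e), ∀ l : ℕ, Spl t c l → l ≤ z →
        ¬ ((l : ℤ) ∣ MM t e.1 e.2.1 e.2.2 q ∧
          ((l : ℤ) ∣ (e.1 : ℤ) * e.2.2 ∨ (l : ℤ) ^ 2 ∣ MM t e.1 e.2.1 e.2.2 q))) := by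
  classical
  obtain ⟨cf, hc1, hc2, hc3⟩ := hloc z
  have hm := mz_pos t c z
  have hD := D4_pos hG
  have hDm : 0 < D4 t c * mz t c z := Nat.mul_pos hD hm
  have hQQ : ∀ r : ℕ, ∃ Q : Finset ℕ, (r.Coprime (D4 t c * mz t c z) ∧ r ≡ 1 [MOD D4 t c]) →
      ((∀ q ∈ Q, q.Prime ∧ q ≡ r [MOD D4 t c * mz t c z] ∧ z ^ 2 < q) ∧
        S0 ≤ ∑ q ∈ Q, 1 / (q : ℝ) ∧ ∑ q ∈ Q, 1 / (q : ℝ) ≤ S0 + 1) := by
    intro r
    by_cases hr : r.Coprime (D4 t c * mz t c z) ∧ r ≡ 1 [MOD D4 t c]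
    · obtain ⟨Q, h1, h2, h3⟩ := exists_QQ (M := D4 t c * mz t c z) hDm hr.1 (z ^ 2) hS0
      exact ⟨Q, fun _ => ⟨h1, h2, h3⟩⟩
    · exact ⟨∅, fun h => absurd h hr⟩
  choose QQ hQQ using hQQ
  set cl : Tr → ℕ := fun e => cf e.1 e.2.1 e.2.2 % (D4 t c * mz t c z) with hcl
  have hclm : ∀ e, cl e ≡ cf e.1 e.2.1 e.2.2 [MOD D4 t c * mz t c z] :=
    fun e => Nat.mod_modEq _ _
  have hcl4 : ∀ e, cl e ≡ 1 [MOD D4 t c] := by
    intro e
    exact ((hclm e).of_dvd (Dvd.intro _ rfl)).trans (hc1 e.1 e.2.1 e.2.2).1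
  have hclc : ∀ e, (cl e).Coprime (D4 t c * mz t c z) := by
    intro e
    have h1 := hc1 e.1 e.2.1 e.2.2
    have h2 : (cf e.1 e.2.1 e.2.2).Coprime (D4 t c * mz t c z) := by
      apply Nat.Coprime.mul_right _ h1.2
      unfold Nat.Coprime
      rw [h1.1.gcd_eq]
      exact Nat.gcd_one_left _
    unfold Nat.Coprime
    rw [(hclm e).gcd_eq]
    exact h2
  refine ⟨(range (D4 t c * mz t c z)).filter
    (fun r => r.Coprime (D4 t c * mz t c z) ∧ r ≡ 1 [MOD D4 t c]), QQ, cl, ?_, ?_, ?_, ?_, ?_⟩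
  · refine (Finset.card_filter_le _ _).trans ?_
    rw [Finset.card_range]
  · intro e
    rw [mem_filter, mem_range]
    exact ⟨Nat.mod_lt _ hDm, hclc e, hcl4 e⟩
  · intro r hr
    rw [mem_filter] at hr
    obtain ⟨h1, h2, h3⟩ := hQQ r hr.2
    refine ⟨?_, h2, h3⟩
    intro q hq
    obtain ⟨h4, h5, h6⟩ := h1 q hq
    exact ⟨h4, (h5.of_dvd (Dvd.intro _ rfl)).trans hr.2.2, h6⟩
  · intro e f hef
    show cf e.1 e.2.1 e.2.2 % _ = cf f.1 f.2.1 f.2.2 % _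
    rw [hc2 e.1 e.2.1 e.2.2 f.1 f.2.1 f.2.2 (Int.modEq_iff_dvd.2 hef.1).symm
      (Int.modEq_iff_dvd.2 hef.2.1).symm (Int.modEq_iff_dvd.2 hef.2.2).symm]
  · intro e he q hq l hl hlz
    obtain ⟨h1, _, _⟩ := hQQ (cl e) ⟨hclc _, hcl4 _⟩
    have h2 : q ≡ cf e.1 e.2.1 e.2.2 [MOD D4 t c * mz t c z] := (h1 q hq).2.1.trans (hclm e)
    exact hc3 e.1 e.2.1 e.2.2 he.2.2.1 q h2 l hl hlz

/-- the choice of the constant `S₀` -/
lemma exists_S0 {C3 δ κ : ℝ} (t c : ℤ) (hδ : 0 < δ) (hκ : 0 < κ) :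
    ∃ lK : ℝ, 0 ≤ lK ∧ ∀ z : ℕ,
      C3 * mz t c z * Real.exp (-(lK + z * Real.log 16 + 1)) ≤ δ * κ := by
  set K : ℝ := max 1 (C3 / (δ * κ)) with hK
  have hK1 : 1 ≤ K := le_max_left _ _
  have hK2 : C3 / (δ * κ) ≤ K := le_max_right _ _
  have hδκ : 0 < δ * κ := by positivity
  rw [div_le_iff₀ hδκ] at hK2
  refine ⟨Real.log K, Real.log_nonneg hK1, fun z => ?_⟩
  have hm : (mz t c z : ℝ) ≤ 16 ^ z := by exact_mod_cast mz_le t c z
  have hexp : Real.exp (-(Real.log K + z * Real.log 16 + 1)) ≤ 1 / (K * 16 ^ z) := by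
    have h1 : Real.exp (-(Real.log K + z * Real.log 16 + 1)) =
        Real.exp (-1) / (K * 16 ^ z) := by
      rw [neg_add, Real.exp_add, Real.exp_neg (Real.log K + _), Real.exp_add,
        Real.exp_log (by linarith), Real.exp_nat_mul, Real.exp_log (by norm_num)]
      field_simp
    rw [h1]
    have h2 : Real.exp (-1) ≤ 1 := by
      rw [Real.exp_le_one_iff]
      norm_num
    gcongr
  have hm0 : (0 : ℝ) ≤ mz t c z := by positivity
  calc C3 * mz t c z * Real.exp (-(Real.log K + z * Real.log 16 + 1))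
      ≤ (K * (δ * κ)) * 16 ^ z * (1 / (K * 16 ^ z)) := by
        gcongr
    _ = δ * κ := by
        have : K ≠ 0 := by linarith
        field_simp

lemma log_key {A : ℕ} {Q X : ℝ} (hQ : 1 ≤ Q) (hX : Q ≤ X) (hlX : (2 : ℝ) ^ A ≤ Real.log X) :
    Real.log (Q * X) ^ A ≤ Real.log X ^ (A + 1) := by
  have hX0 : 0 < X := by linarith
  have h1 : Real.log (Q * X) ≤ 2 * Real.log X := by
    rw [Real.log_mul (by linarith) hX0.ne']
    have := Real.log_le_log (by linarith) hX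
    linarith
  have h2 : 0 ≤ Real.log (Q * X) := by
    apply Real.log_nonneg
    nlinarith
  have h3 : 0 ≤ Real.log X := Real.log_nonneg (by linarith)
  calc Real.log (Q * X) ^ A ≤ (2 * Real.log X) ^ A := by gcongr
    _ = 2 ^ A * Real.log X ^ A := by rw [mul_pow]
    _ ≤ Real.log X * Real.log X ^ A := by gcongr
    _ = Real.log X ^ (A + 1) := by rw [pow_succ]; ring

end Pool.Agent.W500.GT
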